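import Mathlib

set_option autoImplicit false

namespace Pool.Agent.Results.MP_150040_al.Counterexample

/-- `S` (not necessarily unital) has a faithful simple right module. -/
def RightPrimitive (S : Type) [NonUnitalRing S] : Prop :=
  ∃ (M : Type) (_ : AddCommGroup M) (act : M →+ S →+ M),
    (∀ m r s, act m (r * s) = act (act m r) s) ∧
    (∃ m r, act m r ≠ 0) ∧
    (∀ N : AddSubgroup M, (∀ m ∈ N, ∀ r, act m r ∈ N) → N = ⊥ ∨ N = ⊤) ∧
    (∀ r, (∀ m, act m r = 0) → r = 0)

/-- `S ≠ 0` and the intersection of all nonzero two-sided ideals of `S` is nonzero. -/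
def SubdirectlyIndecomposable (S : Type) [NonUnitalRing S] : Prop :=
  Nontrivial S ∧ ∃ x : S, x ≠ 0 ∧ ∀ I : TwoSidedIdeal S, I ≠ ⊥ → x ∈ I

section General

variable {R : Type} [Ring R] (t : R)

theorem primitive (hc : ∀ r, t * r = r * t)
    (hI : ∀ I : TwoSidedIdeal R, I ≠ ⊥ → ∃ n, t ^ n ∈ I)
    (a : R) (ha : ∀ s, (1 - t * a) * s ≠ 1) : RightPrimitive R := by
  obtain ⟨m, hm, hle⟩ := Ideal.exists_le_maximal
    (Ideal.span {MulOpposite.op (1 - t * a)} : Ideal Rᵐᵒᵖ) (by
      intro h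
      rw [Ideal.eq_top_iff_one, Ideal.mem_span_singleton'] at h
      obtain ⟨s, hs⟩ := h
      exact ha s.unop (by simpa using congrArg MulOpposite.unop hs))
  have hsimple : IsSimpleModule Rᵐᵒᵖ (Rᵐᵒᵖ ⧸ m) :=
    isSimpleModule_iff_isCoatom.mpr (Ideal.isMaximal_def.mp hm)
  let act : (Rᵐᵒᵖ ⧸ m) →+ R →+ (Rᵐᵒᵖ ⧸ m) :=
    { toFun := fun x =>
        { toFun := fun r => MulOpposite.op r • x
          map_zero' := by simp
          map_add' := fun r s => by simp [add_smul] }
      map_zero' := by ext; simp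
      map_add' := fun x y => by ext; simp }
  have hact : ∀ x r, act x r = MulOpposite.op r • x := fun _ _ => rfl
  have h1 : (Submodule.Quotient.mk 1 : Rᵐᵒᵖ ⧸ m) ≠ 0 := by
    rw [Ne, Submodule.Quotient.mk_eq_zero]
    exact fun h => hm.ne_top ((Ideal.eq_top_iff_one _).mpr h)
  refine ⟨Rᵐᵒᵖ ⧸ m, inferInstance, act, fun x r s => ?_, ⟨Submodule.Quotient.mk 1, 1, ?_⟩,
    fun N hN => ?_, fun r hr => ?_⟩
  · simp only [hact, MulOpposite.op_mul, mul_smul]
  · simpa [hact] using h1
  · let N' : Submodule Rᵐᵒᵖ (Rᵐᵒᵖ ⧸ m) :=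
      { N with smul_mem' := fun c x hx => hN x hx c.unop }
    rcases hsimple.eq_bot_or_eq_top N' with h | h
    · exact Or.inl (congrArg Submodule.toAddSubgroup h)
    · exact Or.inr (congrArg Submodule.toAddSubgroup h)
  · by_contra hr0
    let I : TwoSidedIdeal R := TwoSidedIdeal.mk' {r | ∀ x, act x r = 0} (fun x => map_zero _)
      (fun {a b} ha hb x => by rw [map_add, ha, hb, add_zero])
      (fun {a} ha x => by rw [map_neg, ha, neg_zero])
      (fun {a b} hb x => by
        have := hb (act x a)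
        simpa only [hact, MulOpposite.op_mul, mul_smul] using this)
      (fun {a b} ha x => by
        have := ha x
        simp only [hact, MulOpposite.op_mul, mul_smul] at this ⊢
        rw [this, smul_zero])
    obtain ⟨n, hn⟩ := hI I (fun h => hr0 (by
      have : r ∈ I := (TwoSidedIdeal.mem_mk' _ _ _ _ _ _ _).mpr hr
      rwa [h, TwoSidedIdeal.mem_bot] at this))
    have hn' : ∀ x, act x (t ^ n) = 0 := (TwoSidedIdeal.mem_mk' _ _ _ _ _ _ _).mp hn
    have key : ∀ k : ℕ, act (Submodule.Quotient.mk 1) ((t * a) ^ k) = Submodule.Quotient.mk 1 := by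
      have k1 : act (Submodule.Quotient.mk 1) (t * a) = Submodule.Quotient.mk 1 := by
        rw [hact, ← Submodule.Quotient.mk_smul, eq_comm, Submodule.Quotient.eq]
        apply hle
        apply Ideal.subset_span
        simp
      intro k
      induction k with
      | zero => simp [hact]
      | succ k ih =>
        rw [pow_succ, hact, MulOpposite.op_mul, mul_smul, ← hact, ← hact, ih, k1]
    have := key n
    rw [Commute.mul_pow (hc a), hact, MulOpposite.op_mul, mul_smul, ← hact _ (t ^ n), hn',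
      smul_zero] at this
    exact h1 this.symm

theorem kill (hc : ∀ r, t * r = r * t) (hn : ∀ n, t ^ n ≠ 0)
    (hcap : ∀ y, (∀ n, ∃ r, y = t ^ n * r) → y = 0)
    (hI : ∀ I : TwoSidedIdeal R, I ≠ ⊥ → ∃ n, t ^ n ∈ I)
    {S : Type} [NonUnitalRing S] (π : R →ₙ+* S) (hπ : Function.Surjective π)
    (h1 : RightPrimitive S) (h2 : SubdirectlyIndecomposable S) : π t = 0 := by
  have hcn : ∀ n r, t ^ n * r = r * t ^ n := fun n r => Commute.pow_left (hc r) n
  by_cases hinj : Function.Injective π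
  · exfalso
    obtain ⟨-, x, hx, h⟩ := h2
    obtain ⟨y, rfl⟩ := hπ x
    apply hx
    rw [hcap y, map_zero]
    intro n
    let I : TwoSidedIdeal S := TwoSidedIdeal.mk' {s | ∃ r, s = π (t ^ n * r)} ⟨0, by simp⟩
      (by rintro _ _ ⟨a, rfl⟩ ⟨b, rfl⟩; exact ⟨a + b, by rw [mul_add, map_add]⟩)
      (by rintro _ ⟨a, rfl⟩; exact ⟨-a, by rw [mul_neg, map_neg]⟩)
      (by
        rintro a _ ⟨b, rfl⟩
        obtain ⟨a, rfl⟩ := hπ a
        exact ⟨a * b, by rw [← map_mul, ← mul_assoc, ← mul_assoc, hcn]⟩)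
      (by
        rintro _ b ⟨a, rfl⟩
        obtain ⟨b, rfl⟩ := hπ b
        exact ⟨a * b, by rw [← map_mul, mul_assoc]⟩)
    obtain ⟨r, hr⟩ := (TwoSidedIdeal.mem_mk' _ _ _ _ _ _ _).mp (h I (fun hb => hn n (by
      have : π (t ^ n * 1) ∈ I := (TwoSidedIdeal.mem_mk' _ _ _ _ _ _ _).mpr ⟨1, rfl⟩
      rw [hb, TwoSidedIdeal.mem_bot, mul_one] at this
      exact hinj (this.trans (map_zero π).symm))))
    exact ⟨r, hinj hr⟩
  obtain ⟨n, hn⟩ := hI (TwoSidedIdeal.ker π) (fun h => hinj ((TwoSidedIdeal.ker_eq_bot π).mp h))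
  rw [TwoSidedIdeal.mem_ker] at hn
  obtain ⟨M, _, act, hm, ⟨m0, r0, h0⟩, hs, hf⟩ := h1
  rcases hs (act.flip (π t)).range (by
    rintro _ ⟨m, rfl⟩ r
    obtain ⟨r, rfl⟩ := hπ r
    refine ⟨act m (π r), ?_⟩
    simp only [AddMonoidHom.flip_apply]
    rw [← hm, ← hm, ← map_mul, ← map_mul, hc]) with h | h
  · apply hf
    intro m
    have : act m (π t) ∈ (act.flip (π t)).range := ⟨m, rfl⟩
    rwa [h, AddSubgroup.mem_bot] at this
  · exfalso
    have key : ∀ k : ℕ, ∀ m, ∃ m', act m' (π (t ^ (k + 1))) = m := by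
      have k1 : ∀ m, ∃ m', act m' (π t) = m := fun m => by
        have : m ∈ (act.flip (π t)).range := by rw [h]; trivial
        exact this
      intro k
      induction k with
      | zero => simpa using k1
      | succ k ih =>
        intro m
        obtain ⟨m1, rfl⟩ := k1 m
        obtain ⟨m2, rfl⟩ := ih m1
        exact ⟨m2, by rw [← hm, ← map_mul, ← pow_succ]⟩
    obtain ⟨m', hm'⟩ := key n m0
    rw [pow_succ, map_mul, hn, zero_mul, map_zero] at hm'
    rw [← hm'] at h0
    simp at h0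

end General

section Diff

open Polynomial

variable {D : Type} [CommRing D]

variable (D) in
abbrev E : Type := Module.End D D[X]

noncomputable def mulP : D[X] →ₐ[D] E D := Algebra.lmul D D[X]

theorem mulP_apply (g f : D[X]) : mulP g f = g * f := rfl

noncomputable def ad (r : E D) : E D := r * mulP X - mulP X * r

def Ord : ℕ → E D → Prop
  | 0, r => r = 0
  | n + 1, r => Ord n (ad r)

theorem ad_add (r s : E D) : ad (r + s) = ad r + ad s := by
  simp only [ad]; noncomm_ring

theorem ad_mul (r s : E D) : ad (r * s) = ad r * s + r * ad s := by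
  simp only [ad, sub_mul, mul_sub, mul_assoc]; abel

theorem ad_mulP (g : D[X]) : ad (mulP g) = 0 := by
  rw [ad, ← map_mul, ← map_mul, mul_comm, sub_self]

theorem ord_zero (n : ℕ) : Ord n (0 : E D) := by
  induction n with
  | zero => rfl
  | succ n ih => simpa [Ord, ad] using ih

theorem ord_add {n : ℕ} : ∀ {r s : E D}, Ord n r → Ord n s → Ord n (r + s) := by
  induction n with
  | zero =>
    intro r s hr hs
    simp only [Ord] at *
    rw [hr, hs, add_zero]
  | succ n ih =>
    intro r s hr hs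
    simp only [Ord] at *
    rw [ad_add]
    exact ih hr hs

theorem ord_succ {n : ℕ} : ∀ {r : E D}, Ord n r → Ord (n + 1) r := by
  induction n with
  | zero =>
    intro r hr
    rw [show r = 0 from hr]
    exact ord_zero _
  | succ n ih => exact fun hr => ih hr

theorem ord_mono {m n : ℕ} (h : m ≤ n) {r : E D} (hr : Ord m r) : Ord n r := by
  induction n, h using Nat.le_induction with
  | base => exact hr
  | succ n _ ih => exact ord_succ ih

theorem ord_mul : ∀ (N m n : ℕ) (r s : E D), m + n = N → Ord m r → Ord n s → Ord N (r * s) := by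
  intro N
  induction N with
  | zero =>
    intro m n r s h hr _
    obtain rfl : m = 0 := by omega
    rw [show r = 0 from hr, zero_mul]
    rfl
  | succ N ih =>
    intro m n r s h hr hs
    rcases m with _ | m
    · rw [show r = 0 from hr, zero_mul]; exact ord_zero _
    rcases n with _ | n
    · rw [show s = 0 from hs, mul_zero]; exact ord_zero _
    change Ord N (ad (r * s))
    rw [ad_mul]
    exact ord_add (ih m (n + 1) _ _ (by omega) hr hs) (ih (m + 1) n _ _ (by omega) hr hs)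

variable (D) in
noncomputable def R : Subalgebra D (E D) where
  carrier := {r | ∃ n, Ord n r}
  mul_mem' := fun ⟨m, hm⟩ ⟨n, hn⟩ => ⟨_, ord_mul _ m n _ _ rfl hm hn⟩
  add_mem' := fun ⟨m, hm⟩ ⟨n, hn⟩ =>
    ⟨max m n, ord_add (ord_mono (le_max_left _ _) hm) (ord_mono (le_max_right _ _) hn)⟩
  algebraMap_mem' c := ⟨1, by
    rw [← mulP.commutes c]
    exact ad_mulP _⟩

theorem mulP_mem (g : D[X]) : mulP g ∈ R D := ⟨1, ad_mulP g⟩

noncomputable def mP : D[X] →ₐ[D] R D := mulP.codRestrict (R D) mulP_mem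

theorem der_comm (g : D[X]) :
    (derivative : E D) * mulP g - mulP g * derivative = mulP (derivative g) := by
  refine LinearMap.ext fun f => ?_
  simp [mulP_apply]

noncomputable def der : R D := ⟨derivative, 2, by
  change ad (ad _) = 0
  rw [ad, ad, der_comm]
  exact ad_mulP _⟩

theorem eq_mulP {r : E D} (h : ad r = 0) : r = mulP (r 1) := by
  have h1 : ∀ f, r (X * f) = X * r f := fun f => sub_eq_zero.mp (LinearMap.congr_fun h f)
  refine LinearMap.ext fun f => ?_
  rw [mulP_apply]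
  induction f using Polynomial.induction_on with
  | C a => rw [← mul_one (C a), ← smul_eq_C_mul, map_smul, mul_smul_comm, mul_one]
  | add p q hp hq => rw [map_add, hp, hq, mul_add]
  | monomial n a ih => rw [pow_succ, ← mul_assoc, mul_comm _ X, h1, ih]; ring

theorem exists_poly (I : TwoSidedIdeal (R D)) : ∀ (n : ℕ) (r : R D), Ord n r.1 → r ∈ I → r ≠ 0 →
    ∃ g, g ≠ 0 ∧ mP g ∈ I := by
  intro n
  induction n with
  | zero => exact fun r h _ h0 => absurd (Subtype.ext (show r.1 = 0 from h)) h0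
  | succ n ih =>
    intro r h hr h0
    by_cases ha : ad r.1 = 0
    · have e : r = mP (r.1 1) := Subtype.ext (eq_mulP ha)
      refine ⟨r.1 1, fun h1 => h0 ?_, e ▸ hr⟩
      rw [e, h1, map_zero]
    · exact ih (r * mP X - mP X * r) (show Ord n (ad r.1) from h) (I.sub_mem (I.mul_mem_right _ _ hr) (I.mul_mem_left _ _ hr))
        (fun h1 => ha (congrArg Subtype.val h1))

theorem exists_const [IsAddTorsionFree D] (I : TwoSidedIdeal (R D)) :
    ∀ (n : ℕ) (g : D[X]), g.natDegree = n → g ≠ 0 →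
    mP g ∈ I → ∃ c : D, c ≠ 0 ∧ algebraMap D (R D) c ∈ I := by
  intro n
  induction n using Nat.strong_induction_on with
  | _ n ih =>
    intro g hn h0 hg
    by_cases hd : g.natDegree = 0
    · rw [eq_C_of_natDegree_eq_zero hd] at h0 hg
      exact ⟨g.coeff 0, fun h => h0 (by rw [h, map_zero]), by rw [← mP.commutes]; exact hg⟩
    · refine ih _ (hn ▸ natDegree_derivative_lt hd) (derivative g) rfl
        (fun h => hd (derivative_eq_zero.mp h)) ?_
      have e : mP (derivative g) = der * mP g - mP g * der := Subtype.ext (der_comm g).symm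
      rw [e]
      exact I.sub_mem (I.mul_mem_left _ _ hg) (I.mul_mem_right _ _ hg)

theorem t_ideal [IsAddTorsionFree D] (t : D) (ht : ∀ c : D, c ≠ 0 → ∃ k u, c * u = t ^ k)
    (I : TwoSidedIdeal (R D)) (h : I ≠ ⊥) : ∃ n, algebraMap D (R D) t ^ n ∈ I := by
  obtain ⟨r, hr, h0⟩ : ∃ r ∈ I, r ≠ 0 := by
    by_contra hc
    push Not at hc
    exact h (eq_bot_iff.mpr fun r hr => (TwoSidedIdeal.mem_bot _).mpr (hc r hr))
  obtain ⟨n, hn⟩ := r.2
  obtain ⟨g, hg0, hg⟩ := exists_poly I n r hn hr h0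
  obtain ⟨c, hc0, hc⟩ := exists_const I _ g rfl hg0 hg
  obtain ⟨k, u, hu⟩ := ht c hc0
  refine ⟨k, ?_⟩
  rw [← map_pow, ← hu, map_mul]
  exact I.mul_mem_right _ _ hc

theorem t_apply (t : D) (n : ℕ) (r : R D) (f : D[X]) :
    (algebraMap D (R D) t ^ n * r : R D).1 f = (t ^ n : D) • r.1 f := by
  rw [← map_pow, ← Algebra.smul_def]
  rfl

theorem t_cap (t : D) (ht : ∀ y : D, (∀ n, t ^ n ∣ y) → y = 0) (y : R D)
    (h : ∀ n, ∃ r, y = algebraMap D (R D) t ^ n * r) : y = 0 := by
  refine Subtype.ext (LinearMap.ext fun f => Polynomial.ext fun i => ht _ fun n => ?_)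
  obtain ⟨r, hr⟩ := h n
  rw [hr, t_apply, coeff_smul, smul_eq_mul]
  exact dvd_mul_right _ _

theorem t_pow_ne (t : D) (ht : ¬ IsNilpotent t) (n : ℕ) : algebraMap D (R D) t ^ n ≠ 0 := by
  intro h
  have := t_apply t n 1 1
  rw [h, zero_mul] at this
  have h2 := congrArg (fun p => coeff p 0) this
  simp at h2
  exact ht ⟨n, h2.symm⟩

theorem not_inv (t : D) (ht : ¬ IsNilpotent t) (s : R D) :
    (1 - algebraMap D (R D) t * mP X) * s ≠ 1 := by
  intro h
  have e : (1 - algebraMap D (R D) t * mP X : R D) = mP (1 - C t * X) := by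
    rw [map_sub, map_one, map_mul, ← mP.commutes]
    rfl
  rw [e] at h
  have h1 : (1 - C t * X : D[X]) * s.1 1 = 1 :=
    LinearMap.congr_fun (congrArg Subtype.val h) 1
  have h2 := (Polynomial.isUnit_iff_coeff_isUnit_isNilpotent.mp (IsUnit.of_mul_eq_one _ h1)).2 1
    one_ne_zero
  simp [coeff_one] at h2
  exact ht h2

theorem main [IsAddTorsionFree D] (t : D) (h0 : ¬ IsNilpotent t)
    (ht : ∀ c : D, c ≠ 0 → ∃ k u, c * u = t ^ k) (ht' : ∀ y : D, (∀ n, t ^ n ∣ y) → y = 0) :
    ∃ (R : Type) (_ : Ring R), RightPrimitive R ∧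
    ¬ ∃ (ι : Type) (S : ι → Type) (_ : ∀ i, NonUnitalRing (S i)) (π : ∀ i, R →ₙ+* S i),
      (∀ i, Function.Surjective (π i)) ∧ (∀ x, (∀ i, π i x = 0) → x = 0) ∧
      ∀ i, RightPrimitive (S i) ∧ SubdirectlyIndecomposable (S i) := by
  have hc : ∀ r : R D, algebraMap D (R D) t * r = r * algebraMap D (R D) t :=
    fun r => Algebra.commutes _ r
  refine ⟨R D, inferInstance,
    primitive _ hc (t_ideal t ht) (mP Polynomial.X) (not_inv t h0), ?_⟩
  rintro ⟨ι, S, _, π, h1, h2, h3⟩
  exact t_pow_ne t h0 1 (by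
    rw [pow_one]
    exact h2 _ fun i => kill _ hc (t_pow_ne t h0) (t_cap t ht') (t_ideal t ht) (π i) (h1 i)
      (h3 i).1 (h3 i).2)

end Diff

/-- There is a right primitive ring that is not a subdirect product of rings that are both right
primitive and subdirectly indecomposable. -/
theorem result : ∃ (R : Type) (_ : Ring R), RightPrimitive R ∧
    ¬ ∃ (ι : Type) (S : ι → Type) (_ : ∀ i, NonUnitalRing (S i)) (π : ∀ i, R →ₙ+* S i),
      (∀ i, Function.Surjective (π i)) ∧ (∀ x, (∀ i, π i x = 0) → x = 0) ∧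
      ∀ i, RightPrimitive (S i) ∧ SubdirectlyIndecomposable (S i) := by
  have : IsAddTorsionFree (PowerSeries ℚ) := IsAddTorsionFree.of_module_rat _
  refine main (PowerSeries.X : PowerSeries ℚ)
    (fun h => PowerSeries.X_ne_zero h.eq_zero) (fun c hc => ?_) (fun y hy => ?_)
  · obtain ⟨k, u, hu⟩ := IsDiscreteValuationRing.associated_pow_irreducible hc
      (PowerSeries.X_irreducible (R := ℚ))
    exact ⟨k, u, hu⟩
  · ext j
    exact PowerSeries.X_pow_dvd_iff.mp (hy (j + 1)) j (Nat.lt_succ_self j)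

end Pool.Agent.Results.MP_150040_al.Counterexample
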